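import Pool.Agent.H99.HalfDense

/-!
# Counting cliques in a graph in which all sets are dense

`T G j` is the number of ordered `j`-cliques.
-/

set_option autoImplicit false

namespace Pool.Agent.H1.UH

open Finset Pool.Agent.H99.HalfDense

variable {n : ℕ} (G : SimpleGraph (Fin n)) [DecidableRel G.Adj]

/-- common neighbours -/
def cn (s : Finset (Fin n)) : Finset (Fin n) := univ.filter fun v => ∀ u ∈ s, G.Adj v u

theorem mem_cn {s : Finset (Fin n)} {v : Fin n} : v ∈ cn G s ↔ ∀ u ∈ s, G.Adj v u := by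
  simp [cn]

theorem cn_insert (s : Finset (Fin n)) (v : Fin n) :
    cn G (insert v s) = (cn G s).filter fun w => G.Adj v w := by
  ext w
  simp only [mem_cn, Finset.mem_insert, forall_eq_or_imp, Finset.mem_filter]
  rw [and_comm, G.adj_comm]

theorem sum_ins (j : ℕ) (f : Finset (Fin n) → ℝ) :
    ∑ s ∈ G.cliqueFinset j, ∑ v ∈ cn G s, f (insert v s) =
      ((j + 1 : ℕ) : ℝ) * ∑ s ∈ G.cliqueFinset (j + 1), f s := by
  have h1 : ((j + 1 : ℕ) : ℝ) * ∑ s ∈ G.cliqueFinset (j + 1), f s =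
      ∑ s ∈ G.cliqueFinset (j + 1), ∑ _v ∈ s, f s := by
    rw [Finset.mul_sum]
    refine Finset.sum_congr rfl fun s hs => ?_
    rw [SimpleGraph.mem_cliqueFinset_iff] at hs
    rw [Finset.sum_const, hs.card_eq, nsmul_eq_mul]
  rw [h1, Finset.sum_sigma', Finset.sum_sigma']
  refine Finset.sum_bij' (fun p _ => ⟨insert p.2 p.1, p.2⟩) (fun p _ => ⟨p.1.erase p.2, p.2⟩)
    ?_ ?_ ?_ ?_ ?_
  · rintro ⟨s, v⟩ h
    simp only [Finset.mem_sigma, SimpleGraph.mem_cliqueFinset_iff, mem_cn] at h ⊢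
    exact ⟨h.1.insert h.2, Finset.mem_insert_self _ _⟩
  · rintro ⟨s, v⟩ h
    simp only [Finset.mem_sigma, SimpleGraph.mem_cliqueFinset_iff, mem_cn] at h ⊢
    refine ⟨?_, ?_⟩
    · have := h.1.erase_of_mem h.2
      simpa using this
    · intro u hu
      have hu' := Finset.mem_erase.1 hu
      exact h.1.isClique h.2 hu'.2 (Ne.symm hu'.1)
  · rintro ⟨s, v⟩ h
    simp only [Finset.mem_sigma, SimpleGraph.mem_cliqueFinset_iff, mem_cn] at h
    have hv : v ∉ s := fun hv => G.loopless.irrefl v (h.2 v hv)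
    simp [Finset.erase_insert hv]
  · rintro ⟨s, v⟩ h
    simp only [Finset.mem_sigma] at h
    simp [Finset.insert_erase h.2]
  · rintro ⟨s, v⟩ h
    rfl

/-- number of cliques -/
noncomputable def K (j : ℕ) : ℝ := ((G.cliqueFinset j).card : ℝ)

/-- number of ordered cliques -/
noncomputable def T (j : ℕ) : ℝ := (j.factorial : ℝ) * K G j

theorem K_nonneg (j : ℕ) : 0 ≤ K G j := Nat.cast_nonneg _

theorem T_nonneg (j : ℕ) : 0 ≤ T G j := mul_nonneg (Nat.cast_nonneg _) (K_nonneg G j)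

theorem sum_cn (j : ℕ) : ∑ s ∈ G.cliqueFinset j, ((cn G s).card : ℝ) =
    ((j + 1 : ℕ) : ℝ) * K G (j + 1) := by
  have h := sum_ins G j (fun _ => 1)
  simp only [Finset.sum_const, nsmul_eq_mul, mul_one] at h
  exact h

theorem sum_B (j : ℕ) : ∑ s ∈ G.cliqueFinset j,
    B G (fun v => if v ∈ cn G s then (1 : ℝ) else 0) (fun v => if v ∈ cn G s then (1 : ℝ) else 0) =
      ((j + 1 : ℕ) : ℝ) * (((j + 2 : ℕ) : ℝ) * K G (j + 2)) := by
  have h := sum_ins G j (fun s => ((cn G s).card : ℝ))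
  rw [sum_cn G (j + 1)] at h
  rw [← h]
  refine Finset.sum_congr rfl fun s _ => ?_
  rw [B_ind]
  refine Finset.sum_congr rfl fun v _ => ?_
  rw [cn_insert]

theorem T_step {d κ : ℝ}
    (hden : ∀ X : Finset (Fin n), d * (X.card : ℝ) ^ 2 - κ * (n : ℝ) ^ 2 ≤
      B G (fun v => if v ∈ X then (1 : ℝ) else 0) (fun v => if v ∈ X then (1 : ℝ) else 0))
    (hd : 0 ≤ d) (j : ℕ) :
    d * T G (j + 1) ^ 2 - κ * (n : ℝ) ^ 2 * T G j ^ 2 ≤ T G (j + 2) * T G j := by
  have h1 := sum_B G j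
  have h2 : d * ∑ s ∈ G.cliqueFinset j, ((cn G s).card : ℝ) ^ 2 - κ * (n : ℝ) ^ 2 * K G j ≤
      ((j + 1 : ℕ) : ℝ) * (((j + 2 : ℕ) : ℝ) * K G (j + 2)) := by
    rw [← h1]
    have : d * ∑ s ∈ G.cliqueFinset j, ((cn G s).card : ℝ) ^ 2 - κ * (n : ℝ) ^ 2 * K G j =
        ∑ s ∈ G.cliqueFinset j, (d * ((cn G s).card : ℝ) ^ 2 - κ * (n : ℝ) ^ 2) := by
      rw [Finset.sum_sub_distrib, Finset.mul_sum, Finset.sum_const, nsmul_eq_mul]
      unfold K
      ring
    rw [this]
    exact Finset.sum_le_sum fun s _ => hden _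
  have h3 : (((j + 1 : ℕ) : ℝ) * K G (j + 1)) ^ 2 ≤
      K G j * ∑ s ∈ G.cliqueFinset j, ((cn G s).card : ℝ) ^ 2 := by
    rw [← sum_cn]
    exact sq_sum_le_card_mul_sum_sq
  have h4 : d * (((j + 1 : ℕ) : ℝ) * K G (j + 1)) ^ 2 - κ * (n : ℝ) ^ 2 * K G j ^ 2 ≤
      (((j + 1 : ℕ) : ℝ) * (((j + 2 : ℕ) : ℝ) * K G (j + 2))) * K G j := by
    have h5 := mul_le_mul_of_nonneg_right h2 (K_nonneg G j)
    have h6 := mul_le_mul_of_nonneg_left h3 hd
    nlinarith
  have h7 : 0 ≤ (j.factorial : ℝ) ^ 2 := sq_nonneg _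
  have h8 := mul_le_mul_of_nonneg_left h4 h7
  have e1 : T G (j + 1) = (j.factorial : ℝ) * (((j + 1 : ℕ) : ℝ) * K G (j + 1)) := by
    unfold T
    rw [Nat.factorial_succ]
    push_cast
    ring
  have e2 : T G (j + 2) =
      (j.factorial : ℝ) * (((j + 1 : ℕ) : ℝ) * (((j + 2 : ℕ) : ℝ) * K G (j + 2))) := by
    unfold T
    rw [Nat.factorial_succ, Nat.factorial_succ]
    push_cast
    ring
  rw [e1, e2]
  unfold T
  nlinarith

theorem T_le (j : ℕ) : T G (j + 1) ≤ n * T G j := by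
  have h := sum_cn G j
  have h1 : ∑ s ∈ G.cliqueFinset j, ((cn G s).card : ℝ) ≤ n * K G j := by
    have : ∑ s ∈ G.cliqueFinset j, ((cn G s).card : ℝ) ≤ ∑ _s ∈ G.cliqueFinset j, (n : ℝ) := by
      refine Finset.sum_le_sum fun s _ => ?_
      have := (cn G s).card_le_univ
      simp only [Fintype.card_fin] at this
      exact_mod_cast this
    refine this.trans ?_
    rw [Finset.sum_const, nsmul_eq_mul]
    unfold K
    linarith
  have e1 : T G (j + 1) = (j.factorial : ℝ) * (((j + 1 : ℕ) : ℝ) * K G (j + 1)) := by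
    unfold T
    rw [Nat.factorial_succ]
    push_cast
    ring
  rw [e1, ← h]
  unfold T
  have := mul_le_mul_of_nonneg_left h1 (Nat.cast_nonneg (α := ℝ) j.factorial)
  linarith

theorem T_zero : T G 0 = 1 := by
  unfold T K
  have : G.cliqueFinset 0 = {∅} := by
    ext s
    simp [SimpleGraph.mem_cliqueFinset_iff, SimpleGraph.isNClique_iff]
    intro h
    simp [h]
  rw [this]
  simp

theorem T_one : T G 1 = n := by
  have h := sum_cn G 0
  have h0 : G.cliqueFinset 0 = {∅} := by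
    ext s
    simp [SimpleGraph.mem_cliqueFinset_iff, SimpleGraph.isNClique_iff]
    intro h
    simp [h]
  rw [h0] at h
  have h1 : cn G ∅ = univ := by
    ext v
    simp [mem_cn]
  simp only [Finset.sum_singleton, h1, Finset.card_univ, Fintype.card_fin] at h
  unfold T
  simp only [zero_add, Nat.cast_one, one_mul] at h
  simp [← h]

theorem T_two : T G 2 = B G (fun _ => 1) (fun _ => 1) := by
  have h := sum_B G 0
  have h0 : G.cliqueFinset 0 = {∅} := by
    ext s
    simp [SimpleGraph.mem_cliqueFinset_iff, SimpleGraph.isNClique_iff]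
    intro h
    simp [h]
  rw [h0] at h
  have h1 : cn G ∅ = univ := by
    ext v
    simp [mem_cn]
  simp only [Finset.sum_singleton, h1, Finset.mem_univ, if_true] at h
  rw [h]
  unfold T
  simp

end Pool.Agent.H1.UH
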