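import Mathlib

/-!
# A sequence whose ratios decrease slowly
-/

set_option autoImplicit false

namespace Pool.Agent.H1.UH

/-- the inequalities between the clique densities -/
structure Adm (d δ b : ℝ) (t : ℕ → ℝ) : Prop where
  le_one : ∀ j, t j ≤ 1
  nonneg : ∀ j, 0 ≤ t j
  two : d - δ ≤ t 2
  two' : t 2 ≤ d
  three : d ^ 3 + b - δ ≤ t 3
  step : ∀ j, d * t (j + 1) ^ 2 - δ * t j ^ 2 ≤ t (j + 2) * t j

theorem Adm.mono {d δ δ' b : ℝ} {t : ℕ → ℝ} (h : Adm d δ b t) (hδ : δ ≤ δ') : Adm d δ' b t where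
  le_one := h.le_one
  nonneg := h.nonneg
  two := by linarith [h.two]
  two' := h.two'
  three := by linarith [h.three]
  step j := by
    have := h.step j
    have h2 : δ * t j ^ 2 ≤ δ' * t j ^ 2 := mul_le_mul_of_nonneg_right hδ (sq_nonneg _)
    linarith

theorem ratio {d : ℝ} (hd0 : 0 < d) (hd1 : d ≤ 1) (k : ℕ) : ∀ η : ℝ, 0 < η → ∃ δ : ℝ, 0 < δ ∧
    ∀ b : ℝ, 0 ≤ b → ∀ t : ℕ → ℝ, Adm d δ b t →
      d ^ ((k + 2).choose 2) * (1 + b / d ^ 3) ^ k - η ≤ t (k + 2) ∧ 0 < t (k + 2) ∧
        (d ^ k * (d ^ 2 + b / d) - η) * t (k + 2) ≤ t (k + 3) := by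
  induction k with
  | zero =>
    intro η hη
    refine ⟨min (min η (d / 2)) (η * d / 2), by positivity, fun b hb t ht => ?_⟩
    set δ := min (min η (d / 2)) (η * d / 2) with hδ
    have h1 : δ ≤ η := (min_le_left _ _).trans (min_le_left _ _)
    have h2 : δ ≤ d / 2 := (min_le_left _ _).trans (min_le_right _ _)
    have h3 : δ ≤ η * d / 2 := min_le_right _ _
    have ht2 := ht.two
    have ht2' := ht.two'
    have ht3 := ht.three
    have hpos : d / 2 ≤ t 2 := by linarith
    refine ⟨?_, ?_, ?_⟩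
    · simp
      linarith
    · show 0 < t 2
      linarith
    · show (d ^ 0 * (d ^ 2 + b / d) - η) * t 2 ≤ t 3
      have h4 : (d ^ 2 + b / d) * t 2 ≤ (d ^ 2 + b / d) * d :=
        mul_le_mul_of_nonneg_left ht2' (by positivity)
      have h5 : (d ^ 2 + b / d) * d = d ^ 3 + b := by
        field_simp
      have h6 : η * (d / 2) ≤ η * t 2 := mul_le_mul_of_nonneg_left hpos hη.le
      rw [pow_zero, one_mul]
      nlinarith
  | succ k ih =>
    intro η hη
    set M : ℝ := 1 + 2 / d with hM
    have hM0 : 0 < M := by positivity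
    obtain ⟨δ₀, hδ₀, H⟩ := ih (min (min (η / (M + 1)) (η / 2)) (d ^ (k + 2) / 2)) (by positivity)
    set η' := min (min (η / (M + 1)) (η / 2)) (d ^ (k + 2) / 2) with hη'
    have hη'0 : 0 < η' := by positivity
    have hη'1 : η' * (M + 1) ≤ η := by
      have : η' ≤ η / (M + 1) := (min_le_left _ _).trans (min_le_left _ _)
      rwa [le_div_iff₀ (by positivity)] at this
    have hη'2 : η' ≤ η / 2 := (min_le_left _ _).trans (min_le_right _ _)
    have hη'3 : η' ≤ d ^ (k + 2) / 2 := min_le_right _ _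
    refine ⟨min (min δ₀ 1) (η * d ^ (k + 2) / 4), by positivity, fun b hb t ht => ?_⟩
    set δ := min (min δ₀ 1) (η * d ^ (k + 2) / 4) with hδ
    have hδ0 : 0 < δ := by positivity
    have h1 : δ ≤ δ₀ := (min_le_left _ _).trans (min_le_left _ _)
    have h2 : δ ≤ 1 := (min_le_left _ _).trans (min_le_right _ _)
    have h3 : δ ≤ η * d ^ (k + 2) / 4 := min_le_right _ _
    obtain ⟨hA, hB, hC⟩ := H b hb t (ht.mono h1)
    set R : ℝ := d ^ k * (d ^ 2 + b / d) with hR
    have hb2 : b ≤ 2 := by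
      have := ht.three
      have := ht.le_one 3
      have : 0 < d ^ 3 := by positivity
      linarith
    have hR0 : 0 ≤ R := by positivity
    have hRM : R ≤ M := by
      have e1 : d ^ k ≤ 1 := pow_le_one₀ hd0.le hd1
      have e2 : d ^ 2 + b / d ≤ M := by
        have : d ^ 2 ≤ 1 := pow_le_one₀ hd0.le hd1
        have : b / d ≤ 2 / d := by gcongr
        linarith
      calc R ≤ 1 * (d ^ 2 + b / d) := mul_le_mul_of_nonneg_right e1 (by positivity)
        _ ≤ M := by linarith
    have hRd : d ^ (k + 2) ≤ R := by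
      have : R = d ^ (k + 2) + d ^ k * (b / d) := by rw [hR]; ring
      rw [this]
      have : 0 ≤ d ^ k * (b / d) := by positivity
      linarith
    have ht1 := ht.le_one (k + 2)
    have hlow : d ^ (k + 2) / 2 * t (k + 2) ≤ t (k + 3) := by
      refine le_trans (mul_le_mul_of_nonneg_right ?_ hB.le) hC
      linarith
    have hpos : 0 < t (k + 3) := lt_of_lt_of_le (by positivity) hlow
    have hexp : d ^ ((k + 1 + 2).choose 2) * (1 + b / d ^ 3) ^ (k + 1) =
        R * (d ^ ((k + 2).choose 2) * (1 + b / d ^ 3) ^ k) := by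
      have e1 : (k + 1 + 2).choose 2 = (k + 2).choose 2 + (k + 2) := by
        rw [show k + 1 + 2 = (k + 2) + 1 by ring, Nat.choose_succ_succ' (k + 2) 1, Nat.choose_one_right]
        ring
      have e2 : R = d ^ (k + 2) * (1 + b / d ^ 3) := by
        rw [hR]
        field_simp
        ring
      rw [e1, e2, pow_add, pow_succ (1 + b / d ^ 3)]
      ring
    refine ⟨?_, hpos, ?_⟩
    · show _ ≤ t (k + 3)
      rw [hexp]
      set S := d ^ ((k + 2).choose 2) * (1 + b / d ^ 3) ^ k with hS
      have e1 : R * (S - η') ≤ R * t (k + 2) := mul_le_mul_of_nonneg_left hA hR0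
      have e2 : R * η' ≤ M * η' := mul_le_mul_of_nonneg_right hRM hη'0.le
      have e3 : η' * t (k + 2) ≤ η' * 1 := mul_le_mul_of_nonneg_left ht1 hη'0.le
      nlinarith
    · show (d ^ (k + 1) * (d ^ 2 + b / d) - η) * t (k + 3) ≤ t (k + 4)
      have hs := ht.step (k + 2)
      have e0 : d ^ (k + 1) * (d ^ 2 + b / d) = d * R := by rw [hR]; ring
      rw [e0]
      -- multiply by t (k+2)
      have key : (d * R - η) * t (k + 3) * t (k + 2) ≤ t (k + 4) * t (k + 2) := by
        refine le_trans ?_ hs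
        show _ ≤ d * t (k + 3) ^ 2 - δ * t (k + 2) ^ 2
        have e1 : d * t (k + 3) * ((R - η') * t (k + 2)) ≤ d * t (k + 3) * t (k + 3) :=
          mul_le_mul_of_nonneg_left hC (by positivity)
        have e2 : δ * t (k + 2) * t (k + 2) ≤ η / 2 * t (k + 3) * t (k + 2) := by
          refine mul_le_mul_of_nonneg_right ?_ hB.le
          calc δ * t (k + 2) ≤ η * d ^ (k + 2) / 4 * t (k + 2) :=
                mul_le_mul_of_nonneg_right h3 hB.le
            _ = η / 2 * (d ^ (k + 2) / 2 * t (k + 2)) := by ring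
            _ ≤ η / 2 * t (k + 3) := mul_le_mul_of_nonneg_left hlow (by positivity)
        have e3 : d * η' * (t (k + 3) * t (k + 2)) ≤ η / 2 * (t (k + 3) * t (k + 2)) := by
          refine mul_le_mul_of_nonneg_right ?_ (by positivity)
          calc d * η' ≤ 1 * η' := mul_le_mul_of_nonneg_right hd1 hη'0.le
            _ ≤ η / 2 := by linarith
        nlinarith
      exact le_of_mul_le_mul_right key hB

end Pool.Agent.H1.UH
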