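import Pool.Agent.H1.UH.Tri
import Pool.Agent.H1.UH.Seq

/-!
# The sharp number of cliques when all sets of a fixed proportion are dense
-/

set_option autoImplicit false

namespace Pool.Agent.H1.UH

open Finset Pool.Agent.H99.HalfDense

variable {n : ℕ}

theorem K_eq (G : SimpleGraph (Fin n)) [DecidableRel G.Adj] (k : ℕ) :
    K G k = (({s : Finset (Fin n) | G.IsNClique k s}).ncard : ℝ) := by
  unfold K
  have : {s : Finset (Fin n) | G.IsNClique k s} = (G.cliqueFinset k : Set (Finset (Fin n))) := by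
    ext s
    simp [SimpleGraph.mem_cliqueFinset_iff]
  rw [this, Set.ncard_coe_finset]

theorem T_le_pow (G : SimpleGraph (Fin n)) [DecidableRel G.Adj] (j : ℕ) :
    T G j ≤ (n : ℝ) ^ j := by
  induction j with
  | zero => rw [T_zero, pow_zero]
  | succ j ih =>
    refine (T_le G j).trans ?_
    rw [pow_succ']
    exact mul_le_mul_of_nonneg_left ih (Nat.cast_nonneg n)

theorem br_ind (G : SimpleGraph (Fin n)) [DecidableRel G.Adj] (c : ℝ) (X : Finset (Fin n)) :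
    br G (2 * c) (fun v => if v ∈ X then (1 : ℝ) else 0) (fun v => if v ∈ X then (1 : ℝ) else 0) =
      2 * ((({e : Sym2 (Fin n) | e ∈ G.edgeSet ∧ ∀ v ∈ e, v ∈ X}).ncard : ℝ) -
        c * (X.card : ℝ) ^ 2) := by
  unfold br
  rw [ncard_inside]
  have : ∑ v, (if v ∈ X then (1 : ℝ) else 0) = X.card := by simp
  rw [this]
  ring

/-- the densities of cliques satisfy the inequalities of `Adm` -/
theorem adm_of_reg (G : SimpleGraph (Fin n)) [DecidableRel G.Adj] {d κ θ δ : ℝ} (hn : 0 < n)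
    (hd0 : 0 < d) (hd1 : d ≤ 1) (hκ0 : 0 < κ) (hκ : 2 ≤ κ * (n : ℝ) ^ 2) (h : Reg G d κ)
    (hθ0 : 0 < θ) (hθ1 : θ ≤ 1) (h1 : θ ^ 3 + 57 * κ / θ ^ 2 ≤ δ) (h2 : 9 * κ ≤ δ)
    (X : Finset (Fin n)) :
    Adm d δ ((|br G d (fun v => if v ∈ X then (1 : ℝ) else 0)
      (fun v => if v ∈ X then (1 : ℝ) else 0)| / (n : ℝ) ^ 2) ^ 3)
      (fun j => T G j / (n : ℝ) ^ j) := by
  have hn0 : (0 : ℝ) < n := by exact_mod_cast hn
  have habs : ∀ Y : Finset (Fin n), ∀ v, |(if v ∈ Y then (1 : ℝ) else 0)| ≤ 1 := by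
    intro Y v
    split_ifs <;> simp
  have hden : ∀ Y : Finset (Fin n), d * (Y.card : ℝ) ^ 2 - 9 * κ * (n : ℝ) ^ 2 ≤
      B G (fun v => if v ∈ Y then (1 : ℝ) else 0) (fun v => if v ∈ Y then (1 : ℝ) else 0) := by
    intro Y
    have h3 := form_lower G hn h hκ (f := fun v => if v ∈ Y then (1 : ℝ) else 0) (habs Y)
    unfold br at h3
    have h4 : ∑ v, (if v ∈ Y then (1 : ℝ) else 0) = Y.card := by simp
    rw [h4] at h3
    nlinarith
  refine ⟨fun j => ?_, fun j => ?_, ?_, ?_, ?_, fun j => ?_⟩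
  · rw [div_le_one (by positivity)]
    exact T_le_pow G j
  · exact div_nonneg (T_nonneg G j) (by positivity)
  · show d - δ ≤ T G 2 / (n : ℝ) ^ 2
    rw [le_div_iff₀ (by positivity), T_two]
    have h3 := h.tot2
    have h4 : κ * (n : ℝ) ^ 2 ≤ δ * (n : ℝ) ^ 2 :=
      mul_le_mul_of_nonneg_right (by linarith) (sq_nonneg _)
    nlinarith
  · show T G 2 / (n : ℝ) ^ 2 ≤ d
    rw [div_le_iff₀ (by positivity), T_two]
    exact h.tot1
  · show _ ≤ T G 3 / (n : ℝ) ^ 3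
    have h3 := tri G hn h hκ hκ0 hd0.le hd1 (habs X) hθ0 hθ1
    linarith
  · show d * (T G (j + 1) / (n : ℝ) ^ (j + 1)) ^ 2 - δ * (T G j / (n : ℝ) ^ j) ^ 2 ≤
      T G (j + 2) / (n : ℝ) ^ (j + 2) * (T G j / (n : ℝ) ^ j)
    have h3 := T_step G hden hd0.le j
    have h5 : δ * (T G j / (n : ℝ) ^ j) ^ 2 ≥ 9 * κ * (T G j / (n : ℝ) ^ j) ^ 2 :=
      mul_le_mul_of_nonneg_right h2 (sq_nonneg _)
    have h6 : d * (T G (j + 1) / (n : ℝ) ^ (j + 1)) ^ 2 - 9 * κ * (T G j / (n : ℝ) ^ j) ^ 2 =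
        (d * T G (j + 1) ^ 2 - 9 * κ * (n : ℝ) ^ 2 * T G j ^ 2) / (n : ℝ) ^ (2 * j + 2) := by
      field_simp
      ring
    have h7 : T G (j + 2) / (n : ℝ) ^ (j + 2) * (T G j / (n : ℝ) ^ j) =
        (T G (j + 2) * T G j) / (n : ℝ) ^ (2 * j + 2) := by
      field_simp
      ring
    have h8 : (d * T G (j + 1) ^ 2 - 9 * κ * (n : ℝ) ^ 2 * T G j ^ 2) / (n : ℝ) ^ (2 * j + 2) ≤
        (T G (j + 2) * T G j) / (n : ℝ) ^ (2 * j + 2) :=
      div_le_div_of_nonneg_right h3 (by positivity)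
    rw [h7]
    linarith

theorem sharp (α : ℝ) (hα0 : 0 < α) (hα1 : α < 1) (c : ℝ) (hc : 0 < c) (k : ℕ) (η : ℝ)
    (hη : 0 < η) : ∃ ε : ℝ, 0 < ε ∧ ∃ N : ℕ, ∀ n : ℕ, N ≤ n → ∀ G : SimpleGraph (Fin n),
      G.edgeSet.ncard = ⌊c * (n : ℝ) ^ 2⌋₊ →
      (∀ W : Finset (Fin n), W.card = ⌊α * (n : ℝ)⌋₊ →
        (1 - ε) * (α ^ 2 * c * (n : ℝ) ^ 2) ≤
          (({e : Sym2 (Fin n) | e ∈ G.edgeSet ∧ ∀ v ∈ e, v ∈ W}).ncard : ℝ)) →
      ∀ X : Finset (Fin n),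
        ((2 * c) ^ (k.choose 2) *
            (1 + (|(({e : Sym2 (Fin n) | e ∈ G.edgeSet ∧ ∀ v ∈ e, v ∈ X}).ncard : ℝ) -
              c * (X.card : ℝ) ^ 2| / (c * (n : ℝ) ^ 2)) ^ 3) ^ (k - 2) - η) * (n : ℝ) ^ k ≤
          (k.factorial : ℝ) * (({s : Finset (Fin n) | G.IsNClique k s}).ncard : ℝ) := by
  classical
  -- small cases
  by_cases hk0 : k = 0
  · subst hk0
    refine ⟨1, one_pos, 0, fun n _ G _ _ X => ?_⟩
    have h := T_zero G
    unfold T at h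
    rw [K_eq] at h
    rw [h]
    simp
    linarith
  by_cases hk1 : k = 1
  · subst hk1
    refine ⟨1, one_pos, 0, fun n _ G _ _ X => ?_⟩
    have h := T_one G
    unfold T at h
    rw [K_eq] at h
    rw [h]
    simp
    have : (0 : ℝ) ≤ n := Nat.cast_nonneg n
    nlinarith
  obtain ⟨k, rfl⟩ : ∃ j, k = j + 2 := ⟨k - 2, by omega⟩
  rw [show k + 2 - 2 = k by omega]
  -- the case of too many edges
  by_cases hc2 : 1 / 2 < c
  · refine ⟨1, one_pos, 2, fun n hn G hcard _ X => ?_⟩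
    exfalso
    have h1 := G.card_edgeFinset_le_card_choose_two
    rw [Fintype.card_fin] at h1
    have h2 : G.edgeSet.ncard = #G.edgeFinset := by
      rw [← SimpleGraph.coe_edgeFinset, Set.ncard_coe_finset]
    rw [← h2, hcard] at h1
    have hn2 : (2 : ℝ) ≤ n := by exact_mod_cast hn
    have h3 := Nat.lt_floor_add_one (c * (n : ℝ) ^ 2)
    have h4 : ((⌊c * (n : ℝ) ^ 2⌋₊ : ℕ) : ℝ) ≤ ((n.choose 2 : ℕ) : ℝ) := by exact_mod_cast h1
    rw [Nat.cast_choose_two] at h4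
    have h5 : 1 / 2 * (n : ℝ) ^ 2 ≤ c * (n : ℝ) ^ 2 :=
      mul_le_mul_of_nonneg_right hc2.le (sq_nonneg _)
    nlinarith
  have hc2' : c ≤ 1 / 2 := not_lt.1 hc2
  have hd0 : 0 < 2 * c := by linarith
  have hd1 : 2 * c ≤ 1 := by linarith
  obtain ⟨δ₀, hδ₀, H⟩ := ratio hd0 hd1 k η hη
  set δ : ℝ := min δ₀ 1 with hδ
  have hδ0 : 0 < δ := by positivity
  have hδ1 : δ ≤ 1 := min_le_right _ _
  have hδδ : δ ≤ δ₀ := min_le_left _ _
  set θ : ℝ := δ / 2 with hθ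
  have hθ0 : 0 < θ := by positivity
  have hθ1 : θ ≤ 1 := by linarith
  set κ : ℝ := δ * θ ^ 2 / 114 with hκ
  have hκ0 : 0 < κ := by positivity
  have hθ2 : θ ^ 2 ≤ 1 := pow_le_one₀ hθ0.le hθ1
  have hκδ : 114 * κ ≤ δ := by
    rw [hκ]
    nlinarith
  have hθ3 : θ ^ 3 + 57 * κ / θ ^ 2 ≤ δ := by
    have e1 : 57 * κ / θ ^ 2 = δ / 2 := by
      rw [hκ]
      field_simp
      norm_num
    have e2 : θ ^ 3 ≤ θ := by
      calc θ ^ 3 = θ ^ 2 * θ := by ring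
        _ ≤ 1 * θ := mul_le_mul_of_nonneg_right hθ2 hθ0.le
        _ = θ := one_mul _
    rw [e1]
    linarith
  set τ : ℝ := min α (1 - α) / 2 with hτ
  have hα1' : 0 < 1 - α := by linarith
  have hτ0 : 0 < τ := by positivity
  have hτα : τ ≤ α / 2 := by
    have := min_le_left α (1 - α)
    linarith
  have hτα' : τ ≤ (1 - α) / 2 := by
    have := min_le_right α (1 - α)
    linarith
  have hτ1 : τ ≤ 1 := by linarith
  set s : ℝ := κ * τ ^ 3 / 3 with hs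
  have hs0 : 0 < s := by positivity
  have hs1 : s ≤ 1 := by
    have e1 : τ ^ 3 ≤ 1 := pow_le_one₀ hτ0.le hτ1
    have e2 : κ ≤ 1 := by linarith
    have e3 : κ * τ ^ 3 ≤ 1 * 1 := mul_le_mul e2 e1 (by positivity) zero_le_one
    rw [hs]
    linarith
  have hsκ : 3 * s / τ ^ 3 = κ := by
    rw [hs]
    field_simp
  refine ⟨s ^ 2 / (2 * α ^ 2 * c), by positivity, max 1 (max ⌈2 / α⌉₊ ⌈2 / κ⌉₊), ?_⟩
  intro n hN G hcard hW X
  have hn1 : 1 ≤ n := le_trans (le_max_left _ _) hN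
  have hnα : 2 / α ≤ n := (Nat.le_ceil _).trans (by
    exact_mod_cast le_trans ((le_max_left _ _).trans (le_max_right _ _)) hN)
  have hnκ : 2 / κ ≤ n := (Nat.le_ceil _).trans (by
    exact_mod_cast le_trans ((le_max_right _ _).trans (le_max_right _ _)) hN)
  have hn0 : 0 < n := hn1
  have hn1' : (1 : ℝ) ≤ n := by exact_mod_cast hn1
  have hn0' : (0 : ℝ) < n := by linarith
  have hκn : 2 ≤ κ * (n : ℝ) ^ 2 := by
    rw [div_le_iff₀ hκ0] at hnκ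
    nlinarith
  have hcn : 0 ≤ c * (n : ℝ) ^ 2 := by positivity
  have htot : B G (fun _ => (1 : ℝ)) (fun _ => 1) = 2 * (⌊c * (n : ℝ) ^ 2⌋₊ : ℝ) := by
    have h := ncard_inside G Finset.univ
    simp only [Finset.mem_univ, if_true, implies_true, and_true] at h
    rw [h]
    have h2 : {e : Sym2 (Fin n) | e ∈ G.edgeSet} = G.edgeSet := rfl
    rw [h2, hcard]
  have htot1 : B G (fun _ => (1 : ℝ)) (fun _ => 1) ≤ 2 * c * (n : ℝ) ^ 2 := by
    rw [htot]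
    have := Nat.floor_le hcn
    linarith
  have htot2 : 2 * c * (n : ℝ) ^ 2 - 2 ≤ B G (fun _ => (1 : ℝ)) (fun _ => 1) := by
    rw [htot]
    have := Nat.lt_floor_add_one (c * (n : ℝ) ^ 2)
    linarith
  set m : ℕ := ⌊α * (n : ℝ)⌋₊ with hm
  have hm1 : (m : ℝ) ≤ α * n := Nat.floor_le (by positivity)
  have hm2 : α * n - 1 < m := by
    have := Nat.lt_floor_add_one (α * (n : ℝ))
    linarith
  have hαn : 2 ≤ α * n := by
    rw [div_le_iff₀ hα0] at hnα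
    linarith
  have hlow : ∀ f : Fin n → ℝ, (∀ v, 0 ≤ f v ∧ f v ≤ 1) → ∑ v, f v = m →
      2 * α ^ 2 * c * (n : ℝ) ^ 2 - s ^ 2 * (n : ℝ) ^ 2 ≤ B G f f := by
    intro f hf hsum
    obtain ⟨W, hWc, hWQ⟩ := pipage G m _ f hf hsum rfl
    refine le_trans ?_ hWQ
    rw [ncard_inside]
    have h1 := hW W hWc
    have h2 : (1 - s ^ 2 / (2 * α ^ 2 * c)) * (α ^ 2 * c * (n : ℝ) ^ 2) =
        α ^ 2 * c * (n : ℝ) ^ 2 - s ^ 2 / 2 * (n : ℝ) ^ 2 := by
      field_simp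
    rw [h2] at h1
    nlinarith
  have hreg : Reg G (2 * c) κ := by
    have h := reg_of_low G (α := α) (c := c) (s := s) (τ := τ) (β := m / n) (m := m) hn0 hα0 hα1 hc
      hs0 hs1 hτ0 hτα hτα' (by field_simp) (by
        rw [le_div_iff₀ hn0']
        linarith) (by
        rw [div_le_iff₀ hn0']
        exact hm1) hlow htot1 htot2
    rwa [hsκ] at h
  have hadm := adm_of_reg G hn0 hd0 hd1 hκ0 hκn hreg hθ0 hθ1 hθ3 (by linarith) X
  have hfin := (H _ (by positivity) _ (hadm.mono hδδ)).1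
  rw [br_ind, abs_mul, abs_two] at hfin
  set a : ℝ := |(({e : Sym2 (Fin n) | e ∈ G.edgeSet ∧ ∀ v ∈ e, v ∈ X}).ncard : ℝ) -
        c * (X.card : ℝ) ^ 2| with ha
  have e1 : (2 * a / (n : ℝ) ^ 2) ^ 3 / (2 * c) ^ 3 = (a / (c * (n : ℝ) ^ 2)) ^ 3 := by
    rw [← div_pow]
    congr 1
    field_simp
  rw [e1] at hfin
  have hfin' : _ ≤ T G (k + 2) / (n : ℝ) ^ (k + 2) := hfin
  rw [le_div_iff₀ (by positivity)] at hfin'
  rw [← K_eq]
  exact hfin'

end Pool.Agent.H1.UH
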