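import Pool.Agent.H99.HalfDense

/-!
# The quadratic form of a graph in which all sets of a fixed proportion are dense

`br G d f g = f^T (A - d J) g` for the adjacency matrix `A`. If every set of `⌊α n⌋` vertices spans at
least the expected number of edges, the form is bounded from below on all bounded functions.
-/

set_option autoImplicit false

namespace Pool.Agent.H1.UH

open Finset Pool.Agent.H99.HalfDense

variable {n : ℕ}

/-- the bilinear form of `A - d J` -/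
noncomputable def br (G : SimpleGraph (Fin n)) [DecidableRel G.Adj] (d : ℝ) (f g : Fin n → ℝ) :
    ℝ := B G f g - d * (∑ v, f v) * ∑ v, g v

/-- one-sided regularity with error `κ` -/
structure Reg (G : SimpleGraph (Fin n)) [DecidableRel G.Adj] (d κ : ℝ) : Prop where
  lin : ∀ x : Fin n → ℝ, (∀ v, |x v| ≤ 1) → ∑ v, x v = 0 →
    |B G (fun _ => 1) x| ≤ κ * (n : ℝ) ^ 2
  quad : ∀ x : Fin n → ℝ, (∀ v, |x v| ≤ 1) → ∑ v, x v = 0 → -(κ * (n : ℝ) ^ 2) ≤ B G x x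
  tot1 : B G (fun _ => 1) (fun _ => 1) ≤ d * (n : ℝ) ^ 2
  tot2 : d * (n : ℝ) ^ 2 - 2 ≤ B G (fun _ => 1) (fun _ => 1)

theorem reg_of_low (G : SimpleGraph (Fin n)) [DecidableRel G.Adj] {α c s τ β : ℝ} {m : ℕ}
    (hn : 0 < n) (hα0 : 0 < α) (hα1 : α < 1) (hc : 0 < c) (hs0 : 0 < s) (hs1 : s ≤ 1)
    (hτ0 : 0 < τ) (hτα : τ ≤ α / 2) (hτα' : τ ≤ (1 - α) / 2) (hβn : β * n = m)
    (hβ1 : α / 2 ≤ β) (hβ2 : β ≤ α)
    (hlow : ∀ f : Fin n → ℝ, (∀ v, 0 ≤ f v ∧ f v ≤ 1) → ∑ v, f v = m →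
      2 * α ^ 2 * c * (n : ℝ) ^ 2 - s ^ 2 * (n : ℝ) ^ 2 ≤ B G f f)
    (htot1 : B G (fun _ => 1) (fun _ => 1) ≤ 2 * c * (n : ℝ) ^ 2)
    (htot2 : 2 * c * (n : ℝ) ^ 2 - 2 ≤ B G (fun _ => 1) (fun _ => 1)) :
    Reg G (2 * c) (3 * s / τ ^ 3) := by
  have hn0 : (0 : ℝ) < n := by exact_mod_cast hn
  have hn2 : (0 : ℝ) ≤ (n : ℝ) ^ 2 := sq_nonneg _
  have hτ1 : τ ≤ 1 := by linarith
  have hβτ : τ ≤ β := by linarith
  have hβ0 : 0 < β := by linarith
  have hβ11 : β ≤ 1 := by linarith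
  set T := B G (fun _ => 1) (fun _ => 1) with hT
  have hβT : β ^ 2 * T ≤ 2 * α ^ 2 * c * (n : ℝ) ^ 2 := by
    have h1 : β ^ 2 ≤ α ^ 2 := by gcongr
    have h2 : 0 ≤ 2 * c * (n : ℝ) ^ 2 := by positivity
    calc β ^ 2 * T ≤ β ^ 2 * (2 * c * (n : ℝ) ^ 2) := by
          exact mul_le_mul_of_nonneg_left htot1 (sq_nonneg β)
      _ ≤ α ^ 2 * (2 * c * (n : ℝ) ^ 2) := mul_le_mul_of_nonneg_right h1 h2
      _ = _ := by ring
  have key : ∀ x : Fin n → ℝ, (∀ v, |x v| ≤ 1) → ∑ v, x v = 0 →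
      |B G (fun _ => 1) x| ≤ s / τ ^ 2 * (n : ℝ) ^ 2 ∧
        -(3 * s / τ ^ 3 * (n : ℝ) ^ 2) ≤ B G x x := by
    intro x hx hx0
    set D := B G (fun _ => 1) x with hD
    set R := B G x x with hR
    have hRabs : |R| ≤ (n : ℝ) ^ 2 := abs_B_le G x x hx hx
    have hbasic : ∀ t : ℝ, |t| ≤ τ → -(s ^ 2 * (n : ℝ) ^ 2) ≤ 2 * β * t * D + t ^ 2 * R := by
      intro t ht
      have hft : ∀ v, 0 ≤ β * (1 : ℝ) + t * x v ∧ β * (1 : ℝ) + t * x v ≤ 1 := by
        intro v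
        have h1 : |t * x v| ≤ τ := by
          rw [abs_mul]
          calc |t| * |x v| ≤ τ * 1 := mul_le_mul ht (hx v) (abs_nonneg _) hτ0.le
            _ = τ := by ring
        rw [abs_le] at h1
        constructor <;> linarith [h1.1, h1.2]
      have hfsum : ∑ v, (β * (1 : ℝ) + t * x v) = m := by
        rw [Finset.sum_add_distrib, ← Finset.mul_sum Finset.univ x, hx0, Finset.sum_const,
          Finset.card_univ, Fintype.card_fin, nsmul_eq_mul]
        rw [← hβn]; ring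
      have h1 := hlow (fun v => β * (1 : ℝ) + t * x v) hft hfsum
      rw [Q_lin G (fun _ => (1 : ℝ)) x β t, ← hT, ← hD, ← hR] at h1
      linarith
    have hDabs : |D| ≤ s / τ ^ 2 * (n : ℝ) ^ 2 := by
      have hst : s * τ ≤ τ := by nlinarith
      have h1 := hbasic (s * τ) (by rw [abs_of_pos (by positivity)]; exact hst)
      have h2 := hbasic (-(s * τ)) (by rw [abs_neg, abs_of_pos (by positivity)]; exact hst)
      have hR1 : R ≤ (n : ℝ) ^ 2 := (abs_le.mp hRabs).2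
      have h3 : (s * τ) ^ 2 * R ≤ s ^ 2 * (n : ℝ) ^ 2 := by
        have h4 : (s * τ) ^ 2 ≤ s ^ 2 := by
          have : s * τ ≤ s := by nlinarith
          gcongr
        calc (s * τ) ^ 2 * R ≤ (s * τ) ^ 2 * (n : ℝ) ^ 2 :=
              mul_le_mul_of_nonneg_left hR1 (sq_nonneg _)
          _ ≤ s ^ 2 * (n : ℝ) ^ 2 := mul_le_mul_of_nonneg_right h4 hn2
      have h4 : 2 * β * (s * τ) * |D| ≤ 2 * (s ^ 2 * (n : ℝ) ^ 2) := by
        rcases abs_cases D with ⟨h, _⟩ | ⟨h, _⟩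
        · rw [h]
          have e : 2 * β * -(s * τ) * D + (-(s * τ)) ^ 2 * R
            = -(2 * β * (s * τ) * D) + (s * τ) ^ 2 * R := by ring
          rw [e] at h2
          linarith
        · rw [h]
          have e : 2 * β * (s * τ) * -D = -(2 * β * (s * τ) * D) := by ring
          rw [e]
          linarith
      have h5 : τ ^ 2 * |D| ≤ s * (n : ℝ) ^ 2 := by
        have h6 : s * (τ ^ 2 * |D|) ≤ s * (s * (n : ℝ) ^ 2) := by
          have h7 : τ * (s * τ * |D|) ≤ β * (s * τ * |D|) :=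
            mul_le_mul_of_nonneg_right hβτ (by positivity)
          nlinarith
        exact le_of_mul_le_mul_left h6 hs0
      rw [div_mul_eq_mul_div, le_div_iff₀ (by positivity)]
      linarith
    refine ⟨hDabs, ?_⟩
    have h1 := hbasic τ (by rw [abs_of_pos hτ0])
    have h2 : β * D ≤ s / τ ^ 2 * (n : ℝ) ^ 2 := by
      calc β * D ≤ β * |D| := mul_le_mul_of_nonneg_left (le_abs_self D) hβ0.le
        _ ≤ 1 * |D| := mul_le_mul_of_nonneg_right hβ11 (abs_nonneg D)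
        _ ≤ _ := by linarith
    have h3 : -(s ^ 2 * (n : ℝ) ^ 2) ≤ 2 * τ * (s / τ ^ 2 * (n : ℝ) ^ 2) + τ ^ 2 * R := by
      have : 2 * β * τ * D = 2 * τ * (β * D) := by ring
      rw [this] at h1
      have h4 : 2 * τ * (β * D) ≤ 2 * τ * (s / τ ^ 2 * (n : ℝ) ^ 2) :=
        mul_le_mul_of_nonneg_left h2 (by positivity)
      linarith
    have h5 : 2 * τ * (s / τ ^ 2 * (n : ℝ) ^ 2) = 2 * (s * (n : ℝ) ^ 2) / τ := by
      field_simp
    rw [h5] at h3
    have h6 : s ^ 2 * (n : ℝ) ^ 2 ≤ s * (n : ℝ) ^ 2 / τ := by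
      rw [le_div_iff₀ hτ0]
      have : s ^ 2 * τ ≤ s := by nlinarith
      nlinarith
    have h7 : -(3 * (s * (n : ℝ) ^ 2) / τ) ≤ τ ^ 2 * R := by
      have : 3 * (s * (n : ℝ) ^ 2) / τ = s * (n : ℝ) ^ 2 / τ + 2 * (s * (n : ℝ) ^ 2) / τ := by ring
      rw [this]
      linarith
    have h8 : 3 * s / τ ^ 3 * (n : ℝ) ^ 2 = (3 * (s * (n : ℝ) ^ 2) / τ) / τ ^ 2 := by
      field_simp
    rw [h8, neg_le, ← mul_le_mul_iff_right₀ (show 0 < τ ^ 2 by positivity)]
    rw [mul_div_cancel₀ _ (by positivity)]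
    linarith
  refine ⟨fun x hx hx0 => ?_, fun x hx hx0 => (key x hx hx0).2, htot1, htot2⟩
  refine (key x hx hx0).1.trans (mul_le_mul_of_nonneg_right ?_ hn2)
  rw [div_le_div_iff₀ (by positivity) (by positivity)]
  have h1 : τ ^ 3 ≤ τ ^ 2 := pow_le_pow_of_le_one hτ0.le hτ1 (by norm_num)
  have h2 : 0 ≤ τ ^ 2 := by positivity
  nlinarith [mul_le_mul_of_nonneg_left h1 hs0.le, mul_nonneg hs0.le h2]

variable (G : SimpleGraph (Fin n)) [DecidableRel G.Adj] {d κ : ℝ}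

theorem form_lower (hn : 0 < n) (h : Reg G d κ) (hκ : 2 ≤ κ * (n : ℝ) ^ 2) {f : Fin n → ℝ}
    (hf : ∀ v, |f v| ≤ 1) : -(9 * κ * (n : ℝ) ^ 2) ≤ br G d f f := by
  have hn0 : (0 : ℝ) < n := by exact_mod_cast hn
  set m : ℝ := (∑ v, f v) / n with hm
  have hmn : ∑ v, f v = m * n := by rw [hm]; field_simp
  have hm1 : |m| ≤ 1 := by
    rw [hm, abs_div, abs_of_pos hn0, div_le_one hn0]
    refine (Finset.abs_sum_le_sum_abs _ _).trans ?_
    refine (Finset.sum_le_sum fun v _ => hf v).trans ?_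
    simp
  set x : Fin n → ℝ := fun v => (f v - m) / 2 with hx
  have hx1 : ∀ v, |x v| ≤ 1 := by
    intro v
    simp only [hx]
    rw [abs_div, abs_of_pos (by norm_num : (0 : ℝ) < 2), div_le_one (by norm_num)]
    refine (abs_sub _ _).trans ?_
    linarith [hf v]
  have hx0 : ∑ v, x v = 0 := by
    simp only [hx]
    rw [← Finset.sum_div, Finset.sum_sub_distrib, hmn]
    simp
    ring
  have hfx : f = fun v => m * (1 : ℝ) + 2 * x v := by
    funext v
    simp only [hx]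
    ring
  have hD := h.lin x hx1 hx0
  have hR := h.quad x hx1 hx0
  unfold br
  rw [hmn]
  conv_rhs => rw [hfx]
  rw [Q_lin G (fun _ => (1 : ℝ)) x m 2]
  have h1 : m ^ 2 * (d * (n : ℝ) ^ 2 - 2) ≤ m ^ 2 * B G (fun _ => 1) (fun _ => 1) :=
    mul_le_mul_of_nonneg_left h.tot2 (sq_nonneg _)
  have h2 : m ^ 2 ≤ 1 := by
    rw [← sq_abs]
    exact pow_le_one₀ (abs_nonneg _) hm1
  have h3 : -(κ * (n : ℝ) ^ 2) ≤ m * B G (fun _ => 1) x := by
    have : |m * B G (fun _ => 1) x| ≤ κ * (n : ℝ) ^ 2 := by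
      rw [abs_mul]
      calc |m| * |B G (fun _ => 1) x| ≤ 1 * (κ * (n : ℝ) ^ 2) :=
            mul_le_mul hm1 hD (abs_nonneg _) zero_le_one
        _ = _ := by ring
    exact (abs_le.1 this).1
  nlinarith

theorem br_add (f f' g : Fin n → ℝ) (a b : ℝ) :
    br G d (fun v => a * f v + b * f' v) g = a * br G d f g + b * br G d f' g := by
  unfold br
  rw [B_lin, Finset.sum_add_distrib, ← Finset.mul_sum, ← Finset.mul_sum]
  ring

theorem br_comm (f g : Fin n → ℝ) : br G d f g = br G d g f := by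
  unfold br
  rw [B_comm]
  ring

theorem br_sq (f f' : Fin n → ℝ) (a b : ℝ) :
    br G d (fun v => a * f v + b * f' v) (fun v => a * f v + b * f' v) =
      a ^ 2 * br G d f f + 2 * a * b * br G d f f' + b ^ 2 * br G d f' f' := by
  rw [br_add, br_comm G f, br_comm G f', br_add, br_add, br_comm G f' f]
  ring

theorem form_lower' (hn : 0 < n) (h : Reg G d κ) (hκ : 2 ≤ κ * (n : ℝ) ^ 2) {f : Fin n → ℝ}
    {M : ℝ} (hM : 0 < M) (hf : ∀ v, |f v| ≤ M) :
    -(9 * κ * M ^ 2 * (n : ℝ) ^ 2) ≤ br G d f f := by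
  have h1 := form_lower G hn h hκ (f := fun v => f v / M) (fun v => by
    rw [abs_div, abs_of_pos hM, div_le_one hM]
    exact hf v)
  have h2 : f = fun v => M * (f v / M) + 0 * (f v / M) := by
    funext v
    field_simp
    ring
  have h3 := br_sq G (d := d) (fun v => f v / M) (fun v => f v / M) M 0
  rw [← h2] at h3
  rw [h3]
  have h4 : M ^ 2 * -(9 * κ * (n : ℝ) ^ 2) ≤ M ^ 2 * br G d (fun v => f v / M) fun v => f v / M :=
    mul_le_mul_of_nonneg_left h1 (sq_nonneg _)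
  linarith

end Pool.Agent.H1.UH
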