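import Pool.Agent.H1.UH.Form
import Pool.Agent.H1.UH.Clq

/-!
# Triangles: the sharp bound with a stability term
-/

set_option autoImplicit false

namespace Pool.Agent.H1.UH

open Finset Pool.Agent.H99.HalfDense

variable {n : ℕ} (G : SimpleGraph (Fin n)) [DecidableRel G.Adj] {d κ : ℝ}

/-- row of `A - d J` -/
noncomputable def row (d : ℝ) (x y : Fin n) : ℝ := (if G.Adj x y then (1 : ℝ) else 0) - d

/-- the image of `f` under `A - d J` -/
noncomputable def im (d : ℝ) (f : Fin n → ℝ) (y : Fin n) : ℝ := ∑ x, f x * row G d x y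

theorem br_im (f g : Fin n → ℝ) : br G d f g = ∑ y, im G d f y * g y := by
  unfold br B im row
  have h1 : ∀ y, (∑ x, f x * ((if G.Adj x y then (1 : ℝ) else 0) - d)) * g y =
      (∑ x, if G.Adj x y then f x * g y else 0) - d * (∑ x, f x) * g y := by
    intro y
    rw [Finset.mul_sum, Finset.sum_mul, Finset.sum_mul, ← Finset.sum_sub_distrib]
    refine Finset.sum_congr rfl fun x _ => ?_
    split_ifs <;> ring
  rw [Finset.sum_congr rfl fun y _ => h1 y, Finset.sum_sub_distrib, Finset.sum_comm,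
    Finset.mul_sum]

theorem br_sum_left (f : Fin n → ℝ) (u : Fin n → Fin n → ℝ) (g : Fin n → ℝ) :
    br G d (fun y => ∑ x, f x * u x y) g = ∑ x, f x * br G d (u x) g := by
  rw [br_comm, br_im]
  have h1 : ∀ x, f x * br G d (u x) g = ∑ y, im G d g y * (f x * u x y) := fun x => by
    rw [br_comm, br_im, Finset.mul_sum]
    exact Finset.sum_congr rfl fun y _ => by ring
  rw [Finset.sum_congr rfl fun x _ => h1 x, Finset.sum_comm]
  exact Finset.sum_congr rfl fun y _ => by rw [Finset.mul_sum]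

theorem br_sum_sum (f : Fin n → ℝ) (u : Fin n → Fin n → ℝ) :
    br G d (fun y => ∑ x, f x * u x y) (fun y => ∑ x, f x * u x y) =
      ∑ x, ∑ x', f x * f x' * br G d (u x) (u x') := by
  rw [br_sum_left]
  refine Finset.sum_congr rfl fun x _ => ?_
  rw [br_comm, br_sum_left, Finset.mul_sum]
  refine Finset.sum_congr rfl fun x' _ => ?_
  rw [br_comm G (u x')]
  ring

theorem row_abs (hd0 : 0 ≤ d) (hd1 : d ≤ 1) (x y : Fin n) : |row G d x y| ≤ 1 := by
  unfold row
  rw [abs_le]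
  split_ifs <;> constructor <;> linarith

theorem br_abs_le (hn : 0 < n) (h : Reg G d κ) (hκ : 2 ≤ κ * (n : ℝ) ^ 2) {g k : Fin n → ℝ}
    (hg : ∀ v, |g v| ≤ 1) (hk : ∀ v, |k v| ≤ 1) :
    |br G d g k| ≤ (br G d g g + br G d k k) / 2 + 18 * κ * (n : ℝ) ^ 2 := by
  have h1 := form_lower' G hn h hκ (f := fun v => 1 * g v + 1 * k v) (M := 2) (by norm_num)
    (fun v => (abs_add_le _ _).trans (by rw [one_mul, one_mul]; linarith [hg v, hk v]))
  have h2 := form_lower' G hn h hκ (f := fun v => 1 * g v + (-1) * k v) (M := 2) (by norm_num)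
    (fun v => (abs_add_le _ _).trans (by
      rw [one_mul, neg_one_mul, abs_neg]; linarith [hg v, hk v]))
  rw [br_sq] at h1 h2
  rw [abs_le]
  constructor <;> nlinarith

/-- degree -/
theorem sum_q (hn : 0 < n) (h : Reg G d κ) (hd0 : 0 ≤ d) :
    ∑ x, br G d (row G d x) (row G d x) ≤ T G 3 - d ^ 3 * (n : ℝ) ^ 3 + 6 * d ^ 2 * n := by
  have hn0 : (0 : ℝ) < n := by exact_mod_cast hn
  set dg : Fin n → ℝ := fun x => ∑ y, if G.Adj x y then (1 : ℝ) else 0 with hdg
  set ind : Fin n → Fin n → ℝ := fun x y => if G.Adj x y then (1 : ℝ) else 0 with hind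
  have hrow : ∀ x, row G d x = fun y => 1 * ind x y + (-d) * (1 : ℝ) := by
    intro x
    funext y
    unfold row
    simp only [hind]
    ring
  have hT2 : T G 2 = ∑ x, dg x := by
    rw [T_two]
    unfold B
    simp [hdg]
  have hB1 : ∀ x, B G (ind x) (fun _ => 1) = ∑ y, if G.Adj x y then dg y else 0 := by
    intro x
    unfold B
    refine Finset.sum_congr rfl fun y _ => ?_
    simp only [hind, hdg]
    split_ifs with h1
    · simp
    · simp
  have hS2 : ∑ x, B G (ind x) (fun _ => 1) = ∑ y, dg y ^ 2 := by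
    rw [Finset.sum_congr rfl fun x _ => hB1 x, Finset.sum_comm]
    refine Finset.sum_congr rfl fun y _ => ?_
    have : ∀ x, (if G.Adj x y then dg y else 0) = (if G.Adj y x then (1 : ℝ) else 0) * dg y := by
      intro x
      by_cases hh : G.Adj x y
      · rw [if_pos hh, if_pos hh.symm, one_mul]
      · rw [if_neg hh, if_neg (fun k => hh k.symm), zero_mul]
    rw [Finset.sum_congr rfl fun x _ => this x, ← Finset.sum_mul]
    simp only [hdg]
    ring
  have hT3 : T G 3 = ∑ x, B G (ind x) (ind x) := by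
    have h1 := sum_B G 1
    have e2 : T G 3 = ((1 + 1 : ℕ) : ℝ) * (((1 + 2 : ℕ) : ℝ) * K G (1 + 2)) := by
      unfold T
      have : ((3 : ℕ).factorial : ℝ) = 6 := by norm_num [Nat.factorial]
      rw [this]
      norm_num
      ring
    rw [e2, ← h1]
    have h3 : G.cliqueFinset 1 = univ.image fun x : Fin n => ({x} : Finset (Fin n)) := by
      ext s
      simp only [SimpleGraph.mem_cliqueFinset_iff, Finset.mem_image, Finset.mem_univ, true_and,
        SimpleGraph.isNClique_iff]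
      constructor
      · rintro ⟨_, hs⟩
        obtain ⟨x, hx⟩ := Finset.card_eq_one.1 hs
        exact ⟨x, hx.symm⟩
      · rintro ⟨x, rfl⟩
        simp
    rw [h3, Finset.sum_image (fun x _ y _ hxy => Finset.singleton_injective hxy)]
    refine Finset.sum_congr rfl fun x _ => ?_
    have h4 : (fun v => if v ∈ cn G {x} then (1 : ℝ) else 0) = ind x := by
      funext v
      simp only [mem_cn, Finset.mem_singleton, forall_eq, hind]
      by_cases hh : G.Adj x v
      · rw [if_pos hh, if_pos hh.symm]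
      · rw [if_neg hh, if_neg (fun k => hh k.symm)]
    rw [h4]
  have hq : ∀ x, br G d (row G d x) (row G d x) = B G (ind x) (ind x)
      - 2 * d * B G (ind x) (fun _ => 1) + d ^ 2 * T G 2
      - d * (dg x ^ 2 - 2 * d * n * dg x + d ^ 2 * (n : ℝ) ^ 2) := by
    intro x
    unfold br
    rw [hrow x, Q_lin, T_two, Finset.sum_add_distrib, ← Finset.mul_sum]
    have : ∑ _i : Fin n, -d * (1 : ℝ) = -d * n := by simp; ring
    rw [this]
    have h5 : ∑ i, ind x i = dg x := rfl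
    rw [h5]
    ring
  have hsum : ∑ x, br G d (row G d x) (row G d x) = T G 3 - 3 * d * ∑ y, dg y ^ 2
      + 3 * d ^ 2 * n * T G 2 - d ^ 3 * (n : ℝ) ^ 3 := by
    have hq' : ∀ x, br G d (row G d x) (row G d x) = B G (ind x) (ind x)
        + (-(2 * d)) * B G (ind x) (fun _ => 1) + (-d) * dg x ^ 2 + 2 * d ^ 2 * n * dg x
        + (d ^ 2 * T G 2 - d ^ 3 * (n : ℝ) ^ 2) := fun x => by rw [hq x]; ring
    rw [Finset.sum_congr rfl fun x _ => hq' x, Finset.sum_add_distrib, Finset.sum_add_distrib,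
      Finset.sum_add_distrib, Finset.sum_add_distrib, ← Finset.mul_sum, ← Finset.mul_sum,
      ← Finset.mul_sum, ← hT3, hS2, ← hT2]
    simp only [Finset.sum_const, Finset.card_univ, Fintype.card_fin, nsmul_eq_mul]
    ring
  have hcs : (T G 2) ^ 2 ≤ n * ∑ y, dg y ^ 2 := by
    rw [hT2]
    have := sq_sum_le_card_mul_sum_sq (s := (Finset.univ : Finset (Fin n))) (f := dg)
    simpa using this
  have t1 := h.tot1
  have t2 := h.tot2
  rw [← T_two] at t1 t2
  set e : ℝ := d * (n : ℝ) ^ 2 - T G 2 with he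
  have he0 : 0 ≤ e := by linarith
  have he2 : e ≤ 2 := by linarith
  have hT2e : T G 2 = d * (n : ℝ) ^ 2 - e := by rw [he]; ring
  rw [hT2e] at hcs hsum
  rw [hsum]
  -- multiply by n
  refine le_of_mul_le_mul_left ?_ hn0
  have h6 : 3 * d * (d * (n : ℝ) ^ 2 - e) ^ 2 ≤ 3 * d * (n * ∑ y, dg y ^ 2) :=
    mul_le_mul_of_nonneg_left hcs (by positivity)
  have h7 : 0 ≤ d * e ^ 2 := by positivity
  have h8 : d ^ 2 * (n : ℝ) ^ 2 * e ≤ d ^ 2 * (n : ℝ) ^ 2 * 2 :=
    mul_le_mul_of_nonneg_left he2 (by positivity)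
  nlinarith

/-- **Triangles.** -/
theorem tri (hn : 0 < n) (h : Reg G d κ) (hκ : 2 ≤ κ * (n : ℝ) ^ 2) (hκ0 : 0 < κ) (hd0 : 0 ≤ d)
    (hd1 : d ≤ 1) {f : Fin n → ℝ} (hf : ∀ v, |f v| ≤ 1) {θ : ℝ} (hθ0 : 0 < θ) (hθ1 : θ ≤ 1) :
    d ^ 3 + (|br G d f f| / (n : ℝ) ^ 2) ^ 3 ≤ T G 3 / (n : ℝ) ^ 3 + θ ^ 3 + 57 * κ / θ ^ 2 := by
  have hn0 : (0 : ℝ) < n := by exact_mod_cast hn
  have hn2 : (0 : ℝ) < (n : ℝ) ^ 2 := by positivity
  have hn3 : (0 : ℝ) < (n : ℝ) ^ 3 := by positivity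
  set S : ℝ := ∑ x, br G d (row G d x) (row G d x) with hS
  set F : Fin n → ℝ := im G d f with hF
  have hrow : ∀ x v, |row G d x v| ≤ 1 := fun x v => row_abs G hd0 hd1 x v
  have hFn : ∀ y, |F y| ≤ n := by
    intro y
    simp only [hF, im]
    refine (Finset.abs_sum_le_sum_abs _ _).trans ?_
    refine (Finset.sum_le_sum fun x _ => ?_ : _ ≤ ∑ _x : Fin n, (1 : ℝ)).trans (by simp)
    rw [abs_mul]
    exact mul_le_one₀ (hf x) (abs_nonneg _) (hrow x y)
  -- upper bound for the form at `F`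
  have hFF : br G d F F ≤ n * S + 18 * κ * (n : ℝ) ^ 4 := by
    have h1 : br G d F F = ∑ x, ∑ x', f x * f x' * br G d (row G d x) (row G d x') := by
      rw [← br_sum_sum]
      rfl
    rw [h1]
    have h2 : ∀ x x', f x * f x' * br G d (row G d x) (row G d x') ≤
        (br G d (row G d x) (row G d x) + br G d (row G d x') (row G d x')) / 2
          + 18 * κ * (n : ℝ) ^ 2 := by
      intro x x'
      refine le_trans (le_abs_self _) ?_
      rw [abs_mul, abs_mul]
      have h3 : |f x| * |f x'| ≤ 1 := mul_le_one₀ (hf x) (abs_nonneg _) (hf x')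
      have h4 := br_abs_le G hn h hκ (hrow x) (hrow x')
      calc |f x| * |f x'| * |br G d (row G d x) (row G d x')|
          ≤ 1 * |br G d (row G d x) (row G d x')| :=
            mul_le_mul_of_nonneg_right h3 (abs_nonneg _)
        _ ≤ _ := by rw [one_mul]; exact h4
    refine (Finset.sum_le_sum fun x _ => Finset.sum_le_sum fun x' _ => h2 x x').trans ?_
    have h5 : ∀ x, ∑ x', ((br G d (row G d x) (row G d x) +
        br G d (row G d x') (row G d x')) / 2 + 18 * κ * (n : ℝ) ^ 2) =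
        n * br G d (row G d x) (row G d x) / 2 + S / 2 + n * (18 * κ * (n : ℝ) ^ 2) := by
      intro x
      rw [Finset.sum_add_distrib, ← Finset.sum_div, Finset.sum_add_distrib]
      simp only [Finset.sum_const, Finset.card_univ, Fintype.card_fin, nsmul_eq_mul]
      ring
    rw [Finset.sum_congr rfl fun x _ => h5 x, Finset.sum_add_distrib, Finset.sum_add_distrib,
      ← Finset.sum_div, ← Finset.mul_sum]
    simp only [Finset.sum_const, Finset.card_univ, Fintype.card_fin, nsmul_eq_mul]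
    rw [← hS]
    apply le_of_eq
    ring
  set b : ℝ := (∑ y, F y ^ 2) / (n : ℝ) ^ 3 with hb
  have hbn : ∑ y, F y ^ 2 = b * (n : ℝ) ^ 3 := by rw [hb]; field_simp
  have hb0 : 0 ≤ b := by
    rw [hb]
    exact div_nonneg (Finset.sum_nonneg fun y _ => sq_nonneg _) hn3.le
  have hb1 : b ≤ 1 := by
    rw [hb, div_le_one hn3]
    refine (Finset.sum_le_sum fun y _ => ?_ : _ ≤ ∑ _y : Fin n, (n : ℝ) ^ 2).trans (by
      simp only [Finset.sum_const, Finset.card_univ, Fintype.card_fin, nsmul_eq_mul]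
      apply le_of_eq
      ring)
    rw [← sq_abs]
    exact pow_le_pow_left₀ (abs_nonneg _) (hFn y) 2
  have hfF : br G d f F = b * (n : ℝ) ^ 3 := by
    rw [br_im, ← hbn]
    refine Finset.sum_congr rfl fun y _ => ?_
    rw [sq]
  set a : ℝ := |br G d f f| / (n : ℝ) ^ 2 with ha
  have han : |br G d f f| = a * (n : ℝ) ^ 2 := by rw [ha]; field_simp
  have ha0 : 0 ≤ a := by positivity
  have hab : a ^ 2 ≤ b := by
    have h1 : br G d f f ^ 2 ≤ n * ∑ y, F y ^ 2 := by
      rw [br_im]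
      have h2 : (∑ y, F y * f y) ^ 2 ≤ (∑ y, F y ^ 2) * ∑ y, f y ^ 2 :=
        Finset.sum_mul_sq_le_sq_mul_sq _ _ _
      have h3 : ∑ y, f y ^ 2 ≤ n := by
        refine (Finset.sum_le_sum fun y _ => ?_ : _ ≤ ∑ _y : Fin n, (1 : ℝ)).trans (by simp)
        rw [← sq_abs]
        exact pow_le_one₀ (abs_nonneg _) (hf y)
      refine h2.trans ?_
      rw [mul_comm]
      exact mul_le_mul_of_nonneg_right h3 (Finset.sum_nonneg fun y _ => sq_nonneg _)
    rw [← sq_abs, han, hbn] at h1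
    have h4 : a ^ 2 * (n : ℝ) ^ 4 ≤ b * (n : ℝ) ^ 4 := by nlinarith
    exact le_of_mul_le_mul_right h4 (by positivity)
  -- main inequality with a parameter
  have hpar : ∀ s : ℝ, 0 < s → 2 * s * b ≤ s ^ 2 * a + S / (n : ℝ) ^ 3 + 18 * κ
      + 9 * κ * (1 + s) ^ 2 := by
    intro s hs
    have h1 := form_lower' G hn h hκ (f := fun v => s * f v + (-(1 / n)) * F v) (M := 1 + s)
      (by linarith) (fun v => by
        refine (abs_add_le _ _).trans ?_
        rw [abs_mul, abs_mul, abs_neg, abs_of_pos hs, abs_of_pos (by positivity : (0 : ℝ) < 1 / n)]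
        have h2 : s * |f v| ≤ s * 1 := mul_le_mul_of_nonneg_left (hf v) hs.le
        have h3 : 1 / (n : ℝ) * |F v| ≤ 1 / n * n :=
          mul_le_mul_of_nonneg_left (hFn v) (by positivity)
        have h4 : 1 / (n : ℝ) * n = 1 := by field_simp
        linarith)
    rw [br_sq, hfF] at h1
    have h2 : br G d f f ≤ a * (n : ℝ) ^ 2 := by rw [← han]; exact le_abs_self _
    have h3 : (-(1 / (n : ℝ))) ^ 2 * br G d F F ≤ S / n + 18 * κ * (n : ℝ) ^ 2 := by
      have : S / n + 18 * κ * (n : ℝ) ^ 2 = (-(1 / (n : ℝ))) ^ 2 * (n * S + 18 * κ * (n : ℝ) ^ 4) := by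
        field_simp
      rw [this]
      exact mul_le_mul_of_nonneg_left hFF (sq_nonneg _)
    have h4 : s ^ 2 * br G d f f ≤ s ^ 2 * (a * (n : ℝ) ^ 2) :=
      mul_le_mul_of_nonneg_left h2 (sq_nonneg _)
    have h5 : 2 * s * -(1 / (n : ℝ)) * (b * (n : ℝ) ^ 3) = -(2 * s * b * (n : ℝ) ^ 2) := by
      field_simp
    rw [h5] at h1
    have h6 : 2 * s * b * (n : ℝ) ^ 2 ≤ (s ^ 2 * a + S / (n : ℝ) ^ 3 + 18 * κ
        + 9 * κ * (1 + s) ^ 2) * (n : ℝ) ^ 2 := by
      have : (s ^ 2 * a + S / (n : ℝ) ^ 3 + 18 * κ + 9 * κ * (1 + s) ^ 2) * (n : ℝ) ^ 2 =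
          s ^ 2 * (a * (n : ℝ) ^ 2) + S / n + 18 * κ * (n : ℝ) ^ 2
            + 9 * κ * (1 + s) ^ 2 * (n : ℝ) ^ 2 := by
        field_simp
      rw [this]
      linarith
    exact le_of_mul_le_mul_right h6 hn2
  have hSup : S / (n : ℝ) ^ 3 ≤ T G 3 / (n : ℝ) ^ 3 - d ^ 3 + 3 * κ := by
    have h1 := sum_q G hn h hd0
    rw [← hS] at h1
    rw [div_le_iff₀ hn3]
    have h2 : (T G 3 / (n : ℝ) ^ 3 - d ^ 3 + 3 * κ) * (n : ℝ) ^ 3 =
        T G 3 - d ^ 3 * (n : ℝ) ^ 3 + 3 * (κ * (n : ℝ) ^ 2) * n := by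
      field_simp
    rw [h2]
    have h3 : 6 * d ^ 2 * (n : ℝ) ≤ 6 * n := by
      have : d ^ 2 ≤ 1 := pow_le_one₀ hd0 hd1
      nlinarith
    nlinarith
  have hSlow : -(9 * κ) ≤ S / (n : ℝ) ^ 3 := by
    rw [le_div_iff₀ hn3]
    have h1 : ∑ _x : Fin n, -(9 * κ * (n : ℝ) ^ 2) ≤ S :=
      Finset.sum_le_sum fun x _ => form_lower G hn h hκ (hrow x)
    simp only [Finset.sum_const, Finset.card_univ, Fintype.card_fin, nsmul_eq_mul] at h1
    nlinarith
  have hκθ : κ ≤ κ / θ ^ 2 := by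
    rw [le_div_iff₀ (by positivity)]
    have : θ ^ 2 ≤ 1 := pow_le_one₀ hθ0.le hθ1
    nlinarith
  have hkey : a ^ 3 ≤ S / (n : ℝ) ^ 3 + θ ^ 3 + 54 * (κ / θ ^ 2) := by
    rcases lt_or_ge a θ with h1 | h1
    · have h2 : a ^ 3 ≤ θ ^ 3 := pow_le_pow_left₀ ha0 h1.le 3
      linarith
    · have ha1 : 0 < a := lt_of_lt_of_le hθ0 h1
      rcases eq_or_lt_of_le hb0 with hb2 | hb2
      · rw [← hb2] at hab
        nlinarith [sq_nonneg a]
      have h2 := hpar (b / a) (by positivity)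
      have h3 : 2 * (b / a) * b - (b / a) ^ 2 * a = b ^ 2 / a := by
        field_simp
        ring
      have h4 : a ^ 3 ≤ b ^ 2 / a := by
        rw [le_div_iff₀ ha1]
        nlinarith [pow_le_pow_left₀ (sq_nonneg a) hab 2]
      have h5 : b / a ≤ 1 / θ := div_le_div₀ zero_le_one hb1 hθ0 h1
      have h6 : (1 + b / a) ^ 2 ≤ 4 * (1 / θ ^ 2) := by
        have h7 : 1 + b / a ≤ 2 * (1 / θ) := by
          have : 1 ≤ 1 / θ := by rw [le_div_iff₀ hθ0]; linarith
          linarith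
        have h8 : (0 : ℝ) ≤ 1 + b / a := by positivity
        calc (1 + b / a) ^ 2 ≤ (2 * (1 / θ)) ^ 2 := pow_le_pow_left₀ h8 h7 2
          _ = 4 * (1 / θ ^ 2) := by ring
      have h9 : 9 * κ * (1 + b / a) ^ 2 ≤ 36 * (κ / θ ^ 2) := by
        calc 9 * κ * (1 + b / a) ^ 2 ≤ 9 * κ * (4 * (1 / θ ^ 2)) :=
              mul_le_mul_of_nonneg_left h6 (by positivity)
          _ = _ := by ring
      have h10 : (0 : ℝ) ≤ θ ^ 3 := by positivity
      linarith
  have e1 : 57 * κ / θ ^ 2 = 57 * (κ / θ ^ 2) := by ring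
  rw [e1]
  linarith

end Pool.Agent.H1.UH
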